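import Pool.Agent.GO.Limit

/-!
The limit lemma: a limit of a computable function is computable in the halting problem.
-/

set_option autoImplicit false

namespace Pool.Agent.H61.INS

open Pool.Agent.H36.LFI (SD)
open Pool.Agent.GO (lim_code chf Halt)
open Nat.Partrec (Code)

theorem lim_changeN {g : ℕ → ℕ → ℕ} (hg : Computable₂ g) :
    SD (fun p : ℕ => ∃ t, p.unpair.2 < t ∧ g p.unpair.1 t ≠ g p.unpair.1 p.unpair.2) := by
  refine SD.ex (p := fun (p t : ℕ) => p.unpair.2 < t ∧
    g p.unpair.1 t ≠ g p.unpair.1 p.unpair.2) (SD.and (SD.of_primrec ?_) (SD.of_computable ?_))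
  · exact Primrec.nat_lt.comp (Primrec.snd.comp (Primrec.unpair.comp Primrec.fst)) Primrec.snd
  · have e1 : Computable (fun x : ℕ × ℕ => x.1.unpair.1) :=
      (Primrec.fst.comp (Primrec.unpair.comp Primrec.fst)).to_comp
    have e2 : Computable (fun x : ℕ × ℕ => x.1.unpair.2) :=
      (Primrec.snd.comp (Primrec.unpair.comp Primrec.fst)).to_comp
    refine ⟨fun _ => instDecidableNot, ?_⟩
    have h1 : Computable (fun b : ℕ × ℕ => decide (b.1 ≠ b.2)) := by
      have : PrimrecPred (fun b : ℕ × ℕ => ¬ b.1 = b.2) :=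
        PrimrecPred.not (Primrec.eq.comp Primrec.fst Primrec.snd)
      exact (PrimrecPred.decide this).to_comp
    exact h1.comp ((hg.comp e1 Computable.snd).pair (hg.comp e1 e2))

theorem recIn_of_lim {f : ℕ → ℕ} {g : ℕ → ℕ → ℕ} (hg : Computable₂ g)
    (hlim : ∀ x, ∃ s₀, ∀ s, s₀ ≤ s → g x s = f x) :
    Nat.RecursiveIn {chf Halt} (fun x => Part.some (f x)) := by
  classical
  obtain ⟨hh, hhc, hhe⟩ := lim_code (lim_changeN hg)
  -- the search
  have o1 : Nat.RecursiveIn {chf Halt} (fun p => chf Halt (hh p)) := by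
    have a1 : Nat.RecursiveIn {chf Halt} (fun p => Part.some (hh p)) :=
      (Partrec.nat_iff.1 hhc.partrec).recursiveIn
    have a2 : Nat.RecursiveIn {chf Halt} (chf Halt) := Nat.RecursiveIn.oracle _ rfl
    refine (Nat.RecursiveIn.comp a2 a1).of_eq (fun n => ?_)
    simp
  have o2 := Nat.RecursiveIn.rfind o1
  have o3 : Nat.RecursiveIn {chf Halt} (fun p : ℕ =>
      Part.some (g p.unpair.1 p.unpair.2)) := by
    refine Nat.Partrec.recursiveIn (Partrec.nat_iff.1 ?_)
    refine Computable.partrec ?_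
    exact hg.comp (Primrec.fst.comp Primrec.unpair).to_comp
      (Primrec.snd.comp Primrec.unpair).to_comp
  have o4 : Nat.RecursiveIn {chf Halt} (fun e : ℕ => Part.some e) :=
    (Partrec.nat_iff.1 Computable.id.partrec).recursiveIn
  have o5 := Nat.RecursiveIn.comp o3 (Nat.RecursiveIn.pair o4 o2)
  refine o5.of_eq (fun e => ?_)
  -- the value of the search
  have hz : ∀ s, (0 ∈ chf Halt (hh (Nat.pair e s))) ↔ ∀ t, s < t → g e t = g e s := by
    intro s
    have := hhe (Nat.pair e s)
    simp only [Nat.unpair_pair] at this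
    unfold chf
    rw [Part.mem_some_iff]
    constructor
    · intro h0 t ht
      by_contra hne
      have h1 := this.1 ⟨t, ht, hne⟩
      rw [if_pos h1] at h0
      exact absurd h0 (by norm_num)
    · intro h0
      rw [if_neg]
      intro h1
      obtain ⟨t, ht, hne⟩ := this.2 h1
      exact hne (h0 t ht)
  obtain ⟨s₀, hs₀⟩ := hlim e
  have hdom : (Nat.rfind fun n => (fun m => decide (m = 0)) <$>
      chf Halt (hh (Nat.pair e n))).Dom := by
    rw [Nat.rfind_dom]
    refine ⟨s₀, ?_, ?_⟩
    · have h0 : 0 ∈ chf Halt (hh (Nat.pair e s₀)) := by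
        rw [hz]
        intro t ht
        rw [hs₀ t ht.le, hs₀ s₀ le_rfl]
      simp only [Part.map_eq_map, Part.mem_map_iff]
      exact ⟨0, h0, by simp⟩
    · intro m _
      unfold chf
      simp
  obtain ⟨s, hs⟩ := Part.dom_iff_mem.1 hdom
  have hs0 : ∀ t, s < t → g e t = g e s := by
    rw [← hz]
    have := Nat.rfind_spec hs
    simp only [Part.map_eq_map, Part.mem_map_iff] at this
    obtain ⟨a, ha, ha0⟩ := this
    have : a = 0 := by simpa using ha0
    rwa [this] at ha
  have hval : g e s = f e := by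
    have h1 := hs₀ (max s₀ (s + 1)) (le_max_left _ _)
    rw [← h1, hs0 _ (lt_of_lt_of_le (Nat.lt_succ_self s) (le_max_right _ _))]
  have hse := Part.eq_some_iff.2 hs
  show ((Nat.pair <$> (Part.some e) <*> (Nat.rfind fun n => (fun m => decide (m = 0)) <$>
      chf Halt (hh (Nat.pair e n)))) >>= fun p : ℕ =>
        Part.some (g p.unpair.1 p.unpair.2)) = _
  rw [hse, ← hval]
  simp [Seq.seq]

end Pool.Agent.H61.INS
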