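import Pool.Agent.H36.MinNum.Main
import Pool.Agent.GO.Limit

/-!
Supplements to the two minimal numberings (MP_711492_lc): positivity, the limit lemma.
-/

set_option autoImplicit false

namespace Pool.Agent.H61.INS

open Pool.Agent.H36.LFI Pool.Agent.H36.MinNum
open Nat.Partrec (Code)

theorem num_pos {A : Par} (R : Run A) (d : Bool) :
    SD (fun x : ℕ × ℕ => R.num d x.1 = R.num d x.2) := by
  have h1 : SD (fun x : ℕ × ℕ => R.Dead x.1.unpair.1 x.1.unpair.2) :=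
    SD.comp R.s_Dead (f := fun x : ℕ × ℕ => (x.1.unpair.1, x.1.unpair.2)) (by (repeat' with_reducible first | assumption | exact p_id | exact p_const _ | refine p_ms ?_ | refine p_qq ?_ ?_ ?_ | refine p_st ?_ ?_ | refine p_ta ?_ ?_ | refine p_tb ?_ ?_ | refine p_kk ?_ ?_ ?_ | refine p_ty ?_ ?_ ?_ | refine p_lk ?_ ?_ ?_ | refine p_pt ?_ | refine p_DD ?_ | refine p_KK ?_ | refine p_al ?_ | refine p_la ?_ ?_ | refine p_lb ?_ ?_ ?_ ?_ ?_ | refine p_fst ?_ | refine p_snd ?_ | refine p_unpair ?_))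
  have h2 : SD (fun x : ℕ × ℕ => R.Dead x.2.unpair.1 x.2.unpair.2) :=
    SD.comp R.s_Dead (f := fun x : ℕ × ℕ => (x.2.unpair.1, x.2.unpair.2)) (by (repeat' with_reducible first | assumption | exact p_id | exact p_const _ | refine p_ms ?_ | refine p_qq ?_ ?_ ?_ | refine p_st ?_ ?_ | refine p_ta ?_ ?_ | refine p_tb ?_ ?_ | refine p_kk ?_ ?_ ?_ | refine p_ty ?_ ?_ ?_ | refine p_lk ?_ ?_ ?_ | refine p_pt ?_ | refine p_DD ?_ | refine p_KK ?_ | refine p_al ?_ | refine p_la ?_ ?_ | refine p_lb ?_ ?_ ?_ ?_ ?_ | refine p_fst ?_ | refine p_snd ?_ | refine p_unpair ?_))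
  refine SD.of_eq (p := fun x : ℕ × ℕ => x.1 = x.2 ∨ (x.1.unpair.1 = x.2.unpair.1 ∧
    R.Dead x.1.unpair.1 x.1.unpair.2 ∧ R.Dead x.2.unpair.1 x.2.unpair.2)) ?_ ?_
  · (repeat' with_reducible first | assumption | exact p_id | exact p_const _ | refine s_DR ?_ ?_ ?_ ?_ ?_ | refine s_Conf ?_ ?_ ?_ | refine s_CR ?_ ?_ ?_ ?_ ?_ | refine s_Al ?_ ?_ ?_ | refine s_not_Al ?_ ?_ ?_ | refine s_At _ ?_ ?_ ?_ | refine s_ShL _ ?_ ?_ ?_ ?_ ?_ | refine s_Drp _ ?_ ?_ ?_ ?_ ?_ | refine s_Show _ ?_ ?_ ?_ ?_ ?_ | refine s_Loc ?_ ?_ ?_ | refine s_Lev ?_ ?_ ?_ | refine s_Fra ?_ ?_ ?_ | refine s_Frb ?_ ?_ ?_ | refine s_PP _ ?_ ?_ ?_ | refine s_QQ _ ?_ ?_ ?_ | refine s_Ph _ ?_ ?_ | refine s_M _ ?_ | refine s_and ?_ ?_ | refine s_or ?_ ?_ | refine s_eq ?_ ?_ | refine s_ne ?_ ?_ | refine s_not_eq ?_ ?_ | refine s_lt ?_ ?_ | refine s_le ?_ ?_ | refine s_not_lt ?_ ?_ | refine s_not_le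 ?_ ?_ | refine s_not_and ?_ ?_ | refine s_not_or ?_ ?_ | refine s_not_not ?_ | refine s_ball ?_ ?_ | refine s_ball_le ?_ ?_ | refine s_mem ?_ ?_ | refine s_ex ?_ | refine s_imp ?_ ?_ | refine p_ms ?_ | refine p_qq ?_ ?_ ?_ | refine p_st ?_ ?_ | refine p_ta ?_ ?_ | refine p_tb ?_ ?_ | refine p_kk ?_ ?_ ?_ | refine p_ty ?_ ?_ ?_ | refine p_lk ?_ ?_ ?_ | refine p_pt ?_ | refine p_DD ?_ | refine p_KK ?_ | refine p_al ?_ | refine p_la ?_ ?_ | refine p_lb ?_ ?_ ?_ ?_ ?_ | refine p_fst ?_ | refine p_snd ?_ | refine p_unpair ?_)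
  · intro x
    exact R.num_eq_iff.symm

theorem main_pos : ∃ (μ : Bool → ℕ → Set ℕ),
    (∀ d, Set.range (μ d) = Set.range (μ false)) ∧
    Set.range (μ false) ⊆ C2 ∧
    (∀ d, {k : ℕ | (Nat.unpair k).2 ∈ μ d (Nat.unpair k).1} ∈ C2) ∧
    (∀ d, ∀ b : ℕ → Set ℕ, Set.range b = Set.range (μ d) → Rd b (μ d) → Rd (μ d) b) ∧
    (∀ d, ∃ f : ℕ → ℕ, (∃ g : ℕ → ℕ → ℕ, Computable₂ g ∧ ∀ x, ∃ s₀, ∀ s, s₀ ≤ s →
      g x s = f x) ∧ μ (!d) = μ d ∘ f) ∧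
    ¬ Rd (μ true) (μ false) ∧
    (∀ γ : ℕ → Set ℕ, Set.range γ = Set.range (μ false) →
      {k : ℕ | (Nat.unpair k).2 ∈ γ (Nat.unpair k).1} ∈ C2 → ∃ d, Rd (μ d) γ) ∧
    ∀ d, REPred (fun x : ℕ × ℕ => μ d x.1 = μ d x.2) := by
  obtain ⟨M, hM, hinf, hcoh⟩ := exists_maximal
  let A : Par :=
    { PP := uPP
      QQ := uQQ
      Ph := uPh
      M := M
      sP := s_uPP
      sQ := s_uQQ
      sPh := s_uPh
      sM := hM }
  obtain ⟨R⟩ := exists_Run A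
  refine ⟨R.num, R.range_num, R.range_C2 false, R.num_C2, ?_, ?_, ?_, ?_,
    fun d => (num_pos R d).to_re⟩
  · rintro d b hb ⟨f, hf, h⟩
    exact R.num_minimal d hb hf h
  · intro d
    obtain ⟨g, hg, hlim⟩ := R.YY_lim
    refine ⟨fun x => R.YY x (R.n x.unpair.1), ⟨g, hg, hlim⟩, ?_⟩
    funext x
    exact (R.num_YY d x).symm
  · rintro ⟨f, hf, h⟩
    obtain ⟨j, hj⟩ := exists_index_fun hf
    exact R.not_red j hinf hj h
  · intro γ hγ hC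
    obtain ⟨P, Q, hP, hQ, hPQ⟩ := C2_elim hC
    obtain ⟨e, he⟩ := exists_index hP hQ
    have hTO : R.TO γ e := by
      refine ⟨hγ, fun k m => ?_⟩
      change _ ↔ uPP e k m ∧ ¬ uQQ e k m
      rw [(he k m).1, (he k m).2, ← hPQ]
      simp
    obtain ⟨d, f, hf, h⟩ := hTO.red hcoh
    exact ⟨d, f, hf, funext fun x => (h x).symm⟩

end Pool.Agent.H61.INS
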